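import Mathlib

set_option autoImplicit false

/-!
# Six colours for two-queue graphs: reduction to closed C1-free words with windows at least five

Vertices `1, …, N`; `r u` is the last right rung end of `u`, the right rungs of `u` go to
`r (u-1), …, r u`.
-/

namespace Pool.Agent.helper30.TQ6

/-- adjacency (`u < w`): path-square edges and rungs -/
def Ed (r : ℕ → ℕ) (u w : ℕ) : Prop := u < w ∧ (w ≤ u + 2 ∨ (r (u - 1) ≤ w ∧ w ≤ r u))

/-- the word graph on `1, …, N` is properly 6-colourable -/
def Col6 (r : ℕ → ℕ) (N : ℕ) : Prop :=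
  ∃ c : ℕ → Fin 6, ∀ u w, 1 ≤ u → w ≤ N → Ed r u w → c u ≠ c w

/-- number of left rungs of `v` -/
def ell (r : ℕ → ℕ) (v : ℕ) : ℕ :=
  ((Finset.Ico 1 v).filter (fun u => r (u - 1) ≤ v ∧ v ≤ r u)).card

/-- ladder degree of `v` -/
def dd (r : ℕ → ℕ) (v : ℕ) : ℕ := (r v - r (v - 1) + 1) + ell r v

/-- closed normal form -/
structure LegalN (r : ℕ → ℕ) (N : ℕ) : Prop where
  mono : Monotone r
  zero : r 0 = 4
  le : ∀ v, r v ≤ N
  win : ∀ v, 1 ≤ v → v + 5 ≤ N → v + 5 ≤ r v
  c1 : ∀ v, 4 ≤ v → v + 4 ≤ N → 6 ≤ dd r v + dd r (v + 1)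

/-- the class in which the induction runs -/
def W (r : ℕ → ℕ) (N : ℕ) : Prop := Monotone r ∧ ∀ v, v + 2 ≤ N → v + 2 ≤ r v

theorem Col6.mono {r s : ℕ → ℕ} {N : ℕ} (h : ∀ u w, 1 ≤ u → w ≤ N → Ed r u w → Ed s u w)
    (hs : Col6 s N) : Col6 r N := by
  obtain ⟨c, hc⟩ := hs
  exact ⟨c, fun u w hu hw he => hc u w hu hw (h u w hu hw he)⟩

theorem small {r : ℕ → ℕ} {N : ℕ} (hN : N ≤ 6) : Col6 r N := by
  refine ⟨fun v => ⟨v % 6, Nat.mod_lt _ (by norm_num)⟩, fun u w hu hw he h => ?_⟩
  rw [Fin.mk.injEq] at h
  have := he.1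
  omega

/-- a permutation moving one injective family to another one -/
theorem exists_perm {k : ℕ} (x y : Fin k ↪ Fin 6) : ∃ g : Equiv.Perm (Fin 6), ∀ i, g (y i) = x i := by
  obtain ⟨g, hg⟩ := (Equiv.Perm.isMultiplyPretransitive (Fin 6) k).exists_smul_eq y x
  refine ⟨g, fun i => ?_⟩
  have := DFunLike.congr_fun hg i
  simpa using this

/-- separation at a small window -/
theorem sep {s : ℕ → ℕ} {N v : ℕ} (hs : W s N)
    (ih : ∀ M, M < N → ∀ r, W r M → Col6 r M)
    (hv : 1 ≤ v) (hvN : v + 5 ≤ N) (hsm : s v ≤ v + 4) : Col6 s N := by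
  obtain ⟨hmono, hlow⟩ := hs
  have hlv : v + 2 ≤ s v := hlow v (by omega)
  obtain ⟨cA, hA⟩ := ih (s v) (by omega) s ⟨hmono, fun x hx => hlow x (by omega)⟩
  obtain ⟨cB, hB⟩ := ih (N - v) (by omega) (fun x => s (x + v) - v)
    ⟨fun a b hab => Nat.sub_le_sub_right (hmono (by omega)) v, fun x hx => by
      have := hlow (x + v) (by omega)
      show x + 2 ≤ s (x + v) - v
      omega⟩
  have hEdB : ∀ u w, v + 1 ≤ u → w ≤ N → Ed s u w → cB (u - v) ≠ cB (w - v) := by
    intro u w hu hw he
    refine hB (u - v) (w - v) (by omega) (by omega) ⟨?_, ?_⟩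
    · have := he.1
      omega
    · rcases he.2 with h | ⟨h1, h2⟩
      · left
        omega
      · right
        show s (u - v - 1 + v) - v ≤ w - v ∧ w - v ≤ s (u - v + v) - v
        have e1 : u - v - 1 + v = u - 1 := by omega
        have e2 : u - v + v = u := by omega
        rw [e1, e2]
        omega
  have hcl : ∀ z z', v + 1 ≤ z → z < z' → z' ≤ s v → Ed s z z' := by
    intro z z' h1 h2 h3
    refine ⟨h2, ?_⟩
    by_cases h : z' ≤ z + 2
    · exact Or.inl h
    · right
      have hz : z = v + 1 := by omega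
      subst hz
      have := hmono (show v ≤ v + 1 by omega)
      simp only [Nat.add_sub_cancel]
      omega
  have inj : ∀ c : ℕ → Fin 6, (∀ z z', v + 1 ≤ z → z < z' → z' ≤ s v → c z ≠ c z') →
      Function.Injective (fun i : Fin (s v - v) => c (v + 1 + i.val)) := by
    intro c hc i j hij
    by_contra hne
    rcases lt_or_gt_of_ne (fun h => hne (Fin.ext h) : i.val ≠ j.val) with h | h
    · exact hc _ _ (by omega) (by omega) (by have := j.isLt; omega) hij
    · exact hc _ _ (by omega) (by omega) (by have := i.isLt; omega) hij.symm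
  obtain ⟨g, hg⟩ := exists_perm
    ⟨_, inj cA (fun z z' h1 h2 h3 => hA z z' (by omega) h3 (hcl z z' h1 h2 h3))⟩
    ⟨_, inj (fun z => cB (z - v))
      (fun z z' h1 h2 h3 => hEdB z z' h1 (by omega) (hcl z z' h1 h2 h3))⟩
  have hg' : ∀ z, v + 1 ≤ z → z ≤ s v → g (cB (z - v)) = cA z := by
    intro z h1 h2
    have := hg ⟨z - v - 1, by omega⟩
    have e : v + 1 + (z - v - 1) = z := by omega
    simpa [e] using this
  refine ⟨fun z => if z ≤ s v then cA z else g (cB (z - v)), fun u w hu hw he => ?_⟩
  by_cases hws : w ≤ s v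
  · have hus : u ≤ s v := by have := he.1; omega
    simp only [hws, hus, if_true]
    exact hA u w hu hws he
  · have huv : v + 1 ≤ u := by
      by_contra hcon
      rcases he.2 with h | ⟨-, h⟩
      · omega
      · have := hmono (show u ≤ v by omega)
        omega
    have h1 : (if u ≤ s v then cA u else g (cB (u - v))) = g (cB (u - v)) := by
      split_ifs with h
      · exact (hg' u huv h).symm
      · rfl
    simp only [hws, if_false]
    rw [h1]
    exact fun h => hEdB u w huv hw he (g.injective h)

/-- contraction of `v-1, v, v+1, v+2` to the vertex `v-1` -/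
def fc (v y : ℕ) : ℕ := max (min y (v - 1)) (y - 3)

/-- the right ends after the contraction -/
def tc (t : ℕ → ℕ) (v x : ℕ) : ℕ := fc v (t (if x + 1 < v then x else x + 3))

theorem fc_mono (v : ℕ) {a b : ℕ} (h : a ≤ b) : fc v a ≤ fc v b := by
  unfold fc
  omega

/-- what is known before the C1 step -/
structure Pre (t : ℕ → ℕ) (N : ℕ) : Prop where
  mono : Monotone t
  zero : t 0 = 4
  le : ∀ v, t v ≤ N
  win : ∀ v, 1 ≤ v → v + 5 ≤ N → v + 5 ≤ t v

theorem Pre.top {t : ℕ → ℕ} {N : ℕ} (h : Pre t N) (hN : 6 ≤ N) {v : ℕ} (hv : N ≤ v + 5) : t v = N := by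
  have h1 := h.win (N - 5) (by omega) (by omega)
  have h2 := h.mono (show N - 5 ≤ v by omega)
  have h3 := h.le v
  omega

theorem tc_W {t : ℕ → ℕ} {N v : ℕ} (h : Pre t N) (hv : 4 ≤ v) (hvN : v + 4 ≤ N) :
    W (tc t v) (N - 3) := by
  constructor
  · intro a b hab
    unfold tc
    refine fc_mono v (h.mono ?_)
    split_ifs <;> omega
  · intro x hx
    unfold tc
    have h0 := h.zero
    by_cases hx0 : x = 0
    · subst hx0
      have : (if 0 + 1 < v then 0 else 0 + 3) = 0 := by
        rw [if_pos]
        omega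
      rw [this, h0]
      unfold fc
      omega
    · set y := (if x + 1 < v then x else x + 3) with hy
      have hy1 : x + 1 < v ∧ y = x ∨ ¬ x + 1 < v ∧ y = x + 3 := by
        rw [hy]
        split_ifs with h1
        · exact Or.inl ⟨h1, rfl⟩
        · exact Or.inr ⟨h1, rfl⟩
      by_cases hyN : y + 5 ≤ N
      · have := h.win y (by omega) hyN
        unfold fc
        omega
      · have := h.top (by omega) (v := y) (by omega)
        unfold fc
        omega

theorem tc_edge {t : ℕ → ℕ} {N v : ℕ} (h : Pre t N) (hv : 4 ≤ v) {a b : ℕ} (ha : 1 ≤ a)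
    (he : Ed t a b) (hne : fc v a ≠ fc v b) : Ed (tc t v) (fc v a) (fc v b) := by
  obtain ⟨hab, he⟩ := he
  have h1 := fc_mono v hab.le
  refine ⟨by omega, ?_⟩
  rcases he with h2 | ⟨h2, h3⟩
  · left
    unfold fc
    omega
  · right
    constructor
    · refine le_trans (fc_mono v (h.mono ?_)) (fc_mono v h2)
      unfold fc
      split_ifs <;> omega
    · refine le_trans (fc_mono v h3) (fc_mono v (h.mono ?_))
      unfold fc
      split_ifs <;> omega

theorem ell_pos {t : ℕ → ℕ} {v : ℕ} (h0 : t 0 = 4) (hv : 4 ≤ v) (ht : v ≤ t (v - 1)) :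
    1 ≤ ell t v := by
  have hex : ∃ u, v ≤ t (u + 1) := ⟨v - 2, by
    have : v - 2 + 1 = v - 1 := by omega
    rw [this]
    exact ht⟩
  classical
  have h1 := Nat.find_spec hex
  have h2 : Nat.find hex ≤ v - 2 := Nat.find_min' hex (by
    have : v - 2 + 1 = v - 1 := by omega
    rw [this]
    exact ht)
  refine Finset.card_pos.mpr ⟨Nat.find hex + 1, ?_⟩
  simp only [Finset.mem_filter, Finset.mem_Ico, Nat.add_sub_cancel]
  refine ⟨by omega, ?_, h1⟩
  rcases Nat.eq_zero_or_pos (Nat.find hex) with h3 | h3
  · rw [h3, h0]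
    exact hv
  · have h4 := Nat.find_min hex (show Nat.find hex - 1 < Nat.find hex by omega)
    have h5 : Nat.find hex - 1 + 1 = Nat.find hex := by omega
    rw [h5] at h4
    omega

theorem exists_avoid (F : Finset (Fin 6)) (hF : F.card ≤ 5) : ∃ a, a ∉ F := by
  by_contra hcon
  push Not at hcon
  have : (Finset.univ : Finset (Fin 6)) ⊆ F := fun x _ => hcon x
  have := Finset.card_le_card this
  simp at this
  omega

theorem contract {t : ℕ → ℕ} {N v : ℕ} (h : Pre t N) (hv : 4 ≤ v) (hvN : v + 4 ≤ N)
    (hd : dd t v + dd t (v + 1) ≤ 5) (hc : Col6 (tc t v) (N - 3)) : Col6 t N := by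
  obtain ⟨c', hc'⟩ := hc
  set c0 : ℕ → Fin 6 := fun x => c' (fc v x) with hc0
  have hwin1 : v + 4 ≤ t (v - 1) := by
    have := h.win (v - 1) (by omega) (by omega)
    omega
  have hwin2 : v + 3 ≤ t (v - 2) := by
    have := h.win (v - 2) (by omega) (by omega)
    omega
  have hwin0 : v + 4 ≤ t v := hwin1.trans (h.mono (by omega))
  have hm1 : t (v - 1) ≤ t v := h.mono (by omega)
  have hm2 : t v ≤ t (v + 1) := h.mono (by omega)
  have hl1 := ell_pos h.zero hv (by omega : v ≤ t (v - 1))
  have hl2 := ell_pos h.zero (by omega : 4 ≤ v + 1) (by simpa using (by omega : v + 1 ≤ t v))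
  -- outside `v, v+1`
  have hout : ∀ a b, 1 ≤ a → b ≤ N → Ed t a b → a ≠ v → a ≠ v + 1 → b ≠ v → b ≠ v + 1 →
      c0 a ≠ c0 b := by
    intro a b ha hb he h1 h2 h3 h4
    have hab := he.1
    have hne : fc v a ≠ fc v b := by
      intro hfe
      have : a = v - 1 ∧ b = v + 2 := by
        unfold fc at hfe
        omega
      obtain ⟨rfl, rfl⟩ := this
      rcases he.2 with h5 | ⟨h5, -⟩
      · omega
      · have e : v - 1 - 1 = v - 2 := by omega
        rw [e] at h5
        omega
    refine hc' _ _ ?_ ?_ (tc_edge h hv ha he hne)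
    · unfold fc
      omega
    · unfold fc
      omega
  set F1 : Finset (Fin 6) := insert (c0 (v - 1)) (insert (c0 (v - 2))
    ((Finset.Icc (t (v - 1)) (t v)).image c0 ∪
      ((Finset.Ico 1 v).filter (fun u => t (u - 1) ≤ v ∧ v ≤ t u)).image c0)) with hF1
  set F2 : Finset (Fin 6) := insert (c0 (v - 1)) (insert (c0 (v + 3))
    ((Finset.Icc (t v) (t (v + 1))).image c0 ∪
      ((Finset.Ico 1 (v + 1)).filter (fun u => t (u - 1) ≤ v + 1 ∧ v + 1 ≤ t u)).image c0)) with hF2
  have hcard1 : F1.card ≤ 2 + dd t v := by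
    refine (Finset.card_insert_le _ _).trans ?_
    refine (Nat.add_le_add_right (Finset.card_insert_le _ _) 1).trans ?_
    have h1 := Finset.card_union_le ((Finset.Icc (t (v - 1)) (t v)).image c0)
      (((Finset.Ico 1 v).filter (fun u => t (u - 1) ≤ v ∧ v ≤ t u)).image c0)
    have h2 : ((Finset.Icc (t (v - 1)) (t v)).image c0).card ≤ t v + 1 - t (v - 1) := by
      refine Finset.card_image_le.trans ?_
      rw [Nat.card_Icc]
    have h3 : (((Finset.Ico 1 v).filter (fun u => t (u - 1) ≤ v ∧ v ≤ t u)).image c0).card ≤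
      ell t v := Finset.card_image_le
    unfold dd
    omega
  have hcard2 : F2.card ≤ 2 + dd t (v + 1) := by
    refine (Finset.card_insert_le _ _).trans ?_
    refine (Nat.add_le_add_right (Finset.card_insert_le _ _) 1).trans ?_
    have h1 := Finset.card_union_le ((Finset.Icc (t v) (t (v + 1))).image c0)
      (((Finset.Ico 1 (v + 1)).filter (fun u => t (u - 1) ≤ v + 1 ∧ v + 1 ≤ t u)).image c0)
    have h2 : ((Finset.Icc (t v) (t (v + 1))).image c0).card ≤ t (v + 1) + 1 - t v := by
      refine Finset.card_image_le.trans ?_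
      rw [Nat.card_Icc]
    have h3 : (((Finset.Ico 1 (v + 1)).filter
      (fun u => t (u - 1) ≤ v + 1 ∧ v + 1 ≤ t u)).image c0).card ≤ ell t (v + 1) :=
      Finset.card_image_le
    have e : dd t (v + 1) = t (v + 1) - t v + 1 + ell t (v + 1) := by
      unfold dd
      simp
    omega
  have hd1 : 2 ≤ dd t v := by
    unfold dd
    omega
  have hd2 : 2 ≤ dd t (v + 1) := by
    unfold dd
    omega
  obtain ⟨x, y, hx, hy, hxy⟩ : ∃ x y, x ∉ F1 ∧ y ∉ F2 ∧ x ≠ y := by
    by_cases hcase : dd t v ≤ 2
    · obtain ⟨y, hy⟩ := exists_avoid F2 (by omega)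
      obtain ⟨x, hx⟩ := exists_avoid (insert y F1)
        ((Finset.card_insert_le _ _).trans (by omega))
      rw [Finset.mem_insert, not_or] at hx
      exact ⟨x, y, hx.2, hy, hx.1⟩
    · obtain ⟨x, hx⟩ := exists_avoid F1 (by omega)
      obtain ⟨y, hy⟩ := exists_avoid (insert x F2)
        ((Finset.card_insert_le _ _).trans (by omega))
      rw [Finset.mem_insert, not_or] at hy
      exact ⟨x, y, hx, hy.2, hy.1 ∘ Eq.symm⟩
  have hc02 : c0 (v + 2) = c0 (v - 1) := by
    simp only [hc0]
    congr 1
    unfold fc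
    omega
  have mem1 : ∀ z, z = v - 1 ∨ z = v - 2 ∨ z = v + 2 ∨ (t (v - 1) ≤ z ∧ z ≤ t v) ∨
      (1 ≤ z ∧ z < v ∧ t (z - 1) ≤ v ∧ v ≤ t z) → x ≠ c0 z := by
    rintro z hz rfl
    apply hx
    rw [hF1]
    simp only [Finset.mem_insert, Finset.mem_union, Finset.mem_image, Finset.mem_Icc,
      Finset.mem_filter, Finset.mem_Ico]
    rcases hz with rfl | rfl | rfl | hz | hz
    · exact Or.inl rfl
    · exact Or.inr (Or.inl rfl)
    · exact Or.inl hc02
    · exact Or.inr (Or.inr (Or.inl ⟨z, hz, rfl⟩))
    · exact Or.inr (Or.inr (Or.inr ⟨z, ⟨⟨hz.1, hz.2.1⟩, hz.2.2⟩, rfl⟩))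
  have mem2 : ∀ z, z = v - 1 ∨ z = v + 2 ∨ z = v + 3 ∨ (t v ≤ z ∧ z ≤ t (v + 1)) ∨
      (1 ≤ z ∧ z < v + 1 ∧ t (z - 1) ≤ v + 1 ∧ v + 1 ≤ t z) → y ≠ c0 z := by
    rintro z hz rfl
    apply hy
    rw [hF2]
    simp only [Finset.mem_insert, Finset.mem_union, Finset.mem_image, Finset.mem_Icc,
      Finset.mem_filter, Finset.mem_Ico]
    rcases hz with rfl | rfl | rfl | hz | hz
    · exact Or.inl rfl
    · exact Or.inl hc02
    · exact Or.inr (Or.inl rfl)
    · exact Or.inr (Or.inr (Or.inl ⟨z, hz, rfl⟩))
    · exact Or.inr (Or.inr (Or.inr ⟨z, ⟨⟨hz.1, hz.2.1⟩, hz.2.2⟩, rfl⟩))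
  refine ⟨fun z => if z = v then x else if z = v + 1 then y else c0 z, ?_⟩
  intro a b ha hb he
  have hab := he.1
  by_cases ha1 : a = v
  · subst ha1
    by_cases hb1 : b = a + 1
    · subst hb1
      simpa using hxy
    · have e1 : (if b = a then x else if b = a + 1 then y else c0 b) = c0 b := by
        rw [if_neg (by omega), if_neg hb1]
      simp only [if_true, e1]
      refine mem1 b ?_
      rcases he.2 with h5 | h5
      · omega
      · exact Or.inr (Or.inr (Or.inr (Or.inl h5)))
  · by_cases ha2 : a = v + 1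
    · subst ha2
      have e1 : (if b = v then x else if b = v + 1 then y else c0 b) = c0 b := by
        rw [if_neg (by omega), if_neg (by omega)]
      have e2 : (if v + 1 = v then x else if v + 1 = v + 1 then y else c0 (v + 1)) = y := by
        rw [if_neg (by omega), if_pos rfl]
      change (if v + 1 = v then x else if v + 1 = v + 1 then y else c0 (v + 1)) ≠
        (if b = v then x else if b = v + 1 then y else c0 b)
      rw [e1, e2]
      refine mem2 b ?_
      rcases he.2 with h5 | h5
      · omega
      · exact Or.inr (Or.inr (Or.inr (Or.inl (by simpa using h5))))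
    · by_cases hb1 : b = v
      · subst hb1
        have e1 : (if a = b then x else if a = b + 1 then y else c0 a) = c0 a := by
          rw [if_neg ha1, if_neg ha2]
        simp only [e1, if_true]
        refine (mem1 a ?_).symm
        rcases he.2 with h5 | h5
        · omega
        · exact Or.inr (Or.inr (Or.inr (Or.inr ⟨ha, hab, h5⟩)))
      · by_cases hb2 : b = v + 1
        · subst hb2
          have e1 : (if a = v then x else if a = v + 1 then y else c0 a) = c0 a := by
            rw [if_neg ha1, if_neg ha2]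
          have e2 : (if v + 1 = v then x else if v + 1 = v + 1 then y else c0 (v + 1)) = y := by
            rw [if_neg (by omega), if_pos rfl]
          change (if a = v then x else if a = v + 1 then y else c0 a) ≠
            (if v + 1 = v then x else if v + 1 = v + 1 then y else c0 (v + 1))
          rw [e1, e2]
          refine (mem2 a ?_).symm
          rcases he.2 with h5 | h5
          · omega
          · exact Or.inr (Or.inr (Or.inr (Or.inr ⟨ha, hab, h5⟩)))
        · have e1 : (if a = v then x else if a = v + 1 then y else c0 a) = c0 a := by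
            rw [if_neg ha1, if_neg ha2]
          have e2 : (if b = v then x else if b = v + 1 then y else c0 b) = c0 b := by
            rw [if_neg hb1, if_neg hb2]
          simp only [e1, e2]
          exact hout a b ha hb he ha1 ha2 hb1 hb2

/-- **GOAL 1**: it is enough to treat closed C1-free words with windows at least five -/
theorem reduce (H : ∀ (r : ℕ → ℕ) (N : ℕ), 7 ≤ N → LegalN r N → Col6 r N) :
    ∀ (N : ℕ) (r : ℕ → ℕ), W r N → Col6 r N := by
  intro N
  induction N using Nat.strong_induction_on with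
  | _ N ih =>
    intro r hr
    by_cases hN : N ≤ 6
    · exact small hN
    · -- closure of the outer end
      set s : ℕ → ℕ := fun v => min (r v) N with hs
      have hsW : W s N := ⟨fun a b hab => by
        have := hr.1 hab
        simp only [hs]
        omega, fun v hv => by
        have := hr.2 v hv
        simp only [hs]
        omega⟩
      refine Col6.mono (s := s) (fun u w hu hw he => ⟨he.1, ?_⟩) ?_
      · rcases he.2 with h | h
        · exact Or.inl h
        · right
          simp only [hs]
          omega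
      · by_cases hwin : ∃ v, 1 ≤ v ∧ v + 5 ≤ N ∧ s v ≤ v + 4
        · obtain ⟨v, h1, h2, h3⟩ := hwin
          exact sep hsW ih h1 h2 h3
        · push Not at hwin
          set t : ℕ → ℕ := fun v => if v = 0 then 4 else s v with ht
          have htv : ∀ v, 1 ≤ v → t v = s v := fun v hv => by
            simp only [ht]
            rw [if_neg (by omega)]
          have ht0 : t 0 = 4 := by simp [ht]
          have hpre : Pre t N := by
            refine ⟨?_, ht0, ?_, ?_⟩
            · intro a b hab
              rcases Nat.eq_zero_or_pos a with rfl | ha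
              · rcases Nat.eq_zero_or_pos b with rfl | hb
                · exact le_rfl
                · rw [ht0, htv b hb]
                  have h1 := hwin 1 le_rfl (by omega)
                  have h2 := hsW.1 (show 1 ≤ b from hb)
                  omega
              · rw [htv a ha, htv b (by omega)]
                exact hsW.1 hab
            · intro v
              rcases Nat.eq_zero_or_pos v with rfl | hv
              · rw [ht0]
                omega
              · rw [htv v hv]
                exact min_le_right _ _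
            · intro v h1 h2
              rw [htv v h1]
              have := hwin v h1 h2
              omega
          refine Col6.mono (s := t) (fun u w hu hw he => ⟨he.1, ?_⟩) ?_
          · rcases he.2 with h | ⟨h1, h2⟩
            · exact Or.inl h
            · rw [htv u hu]
              rcases Nat.lt_or_ge 1 u with h3 | h3
              · rw [htv (u - 1) (by omega)]
                exact Or.inr ⟨h1, h2⟩
              · have : u = 1 := by omega
                subst this
                simp only [Nat.sub_self, ht0]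
                omega
          · by_cases hc : ∃ v, 4 ≤ v ∧ v + 4 ≤ N ∧ dd t v + dd t (v + 1) ≤ 5
            · obtain ⟨v, h1, h2, h3⟩ := hc
              exact contract hpre h1 h2 h3 (ih (N - 3) (by omega) _ (tc_W hpre h1 h2))
            · push Not at hc
              refine H t N (by omega) ⟨hpre.mono, hpre.zero, hpre.le, hpre.win, ?_⟩
              intro v h1 h2
              have := hc v h1 h2
              omega

end Pool.Agent.helper30.TQ6
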